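import Mathlib
import Pool.Agent.H186R3.Del4

set_option autoImplicit false
set_option linter.unusedSectionVars false

namespace Pool.Agent.Results.MP_e6a378_co.ChainReduction

open Metric Module Pool.Agent.H186R3.Del

/-- Euclidean `d`-space. -/
abbrev E (d : ℕ) := EuclideanSpace ℝ (Fin d)

/-- `G` is a finite group of linear isometries of `V` whose only element `A` with operator norm
`‖A - 1‖ ≤ 1/2` is the identity. -/
def Separated {V : Type} [NormedAddCommGroup V] [NormedSpace ℝ V]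
    (G : Subgroup (V ≃ₗᵢ[ℝ] V)) : Prop :=
  Finite G ∧ ∀ A ∈ G, (∀ v : V, ‖A v - v‖ ≤ 1 / 2 * ‖v‖) → A = 1

/-- There is a strictly decreasing chain `G 0 > G 1 > ... > G n` of groups of linear isometries
of `V` whose first member `G 0` is `Separated`. -/
def HasChain (V : Type) [NormedAddCommGroup V] [NormedSpace ℝ V] (n : ℕ) : Prop :=
  ∃ G : ℕ → Subgroup (V ≃ₗᵢ[ℝ] V), Separated (G 0) ∧ ∀ i < n, G (i + 1) < G i

/-- Lengths of strictly decreasing chains `G 0 > G 1 > ... > G n` of subgroups of a finite group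
`G 0` of linear isometries of `ℝ^d` without non-identity elements near the identity. -/
def chainLengths (d : ℕ) : Set ℕ := {n | HasChain (E d) n}

/-- The largest such length. -/
noncomputable def maxChain (d : ℕ) : ℕ := sSup (chainLengths d)

/-- `X` is a Delone set with covering radius at most `R`: distinct points are at distance at
least some `r > 0`, and every closed ball of radius `R` contains a point of `X`. -/
def IsDelone {V : Type} [MetricSpace V] (X : Set V) (R : ℝ) : Prop :=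
  (∃ r : ℝ, 0 < r ∧ ∀ x ∈ X, ∀ y ∈ X, x ≠ y → r ≤ dist x y) ∧ ∀ p : V, ∃ x ∈ X, dist p x ≤ R

/-- All clusters of `X` of radius `ρ` are equivalent. -/
def ClustersEquivalent {V : Type} [MetricSpace V] (X : Set V) (ρ : ℝ) : Prop :=
  ∀ x ∈ X, ∀ y ∈ X, ∃ g : V ≃ᵢ V, g x = y ∧
    g '' (X ∩ closedBall x ρ) = X ∩ closedBall y ρ

/-- `X` is regular: its symmetry group is transitive on `X`. -/
def Regular {V : Type} [MetricSpace V] (X : Set V) : Prop :=
  ∀ x ∈ X, ∀ y ∈ X, ∃ g : V ≃ᵢ V, g x = y ∧ g '' X = X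

/-- cardinality bound by packing -/
theorem card_separated {d : ℕ} (G : Subgroup (E d ≃ₗᵢ[ℝ] E d)) (hG : Separated G) :
    Nat.card G ≤ 5 ^ (d ^ 2) := by
  obtain ⟨hfin, hG⟩ := hG
  let φ : G → (E d →L[ℝ] E d) := fun g => (2 : ℝ) • ((g.1).toContinuousLinearEquiv : E d →L[ℝ] E d)
  have hφ2 : ∀ g, ‖φ g‖ ≤ 2 := by
    intro g
    apply ContinuousLinearMap.opNorm_le_bound _ (by norm_num)
    intro v
    change ‖(2 : ℝ) • (g.1 v)‖ ≤ 2 * ‖v‖
    rw [norm_smul, (g.1).norm_map]
    norm_num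
  have hsepφ : ∀ g h : G, g ≠ h → 1 ≤ ‖φ g - φ h‖ := by
    intro g h hgh
    by_contra hcon
    push Not at hcon
    apply hgh
    have h1 : (h.1)⁻¹ * g.1 = 1 := by
      apply hG _ (G.mul_mem (G.inv_mem h.2) g.2)
      intro v
      have h3 : ((h.1)⁻¹ * g.1) v - v = (h.1)⁻¹ (g.1 v - h.1 v) := by
        rw [map_sub]
        have : (h.1)⁻¹ (h.1 v) = v := (h.1).symm_apply_apply v
        rw [this]; rfl
      rw [h3, LinearIsometryEquiv.norm_map]
      have h4 : (φ g - φ h) v = (2 : ℝ) • (g.1 v - h.1 v) := by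
        change (2 : ℝ) • (g.1 v) - (2 : ℝ) • (h.1 v) = _
        rw [smul_sub]
      have h5 := (φ g - φ h).le_opNorm v
      rw [h4, norm_smul] at h5
      have h6 : ‖φ g - φ h‖ * ‖v‖ ≤ 1 * ‖v‖ :=
        mul_le_mul_of_nonneg_right hcon.le (norm_nonneg v)
      norm_num at h5
      linarith
    apply Subtype.ext
    have h7 : g.1 = h.1 * ((h.1)⁻¹ * g.1) := by group
    rw [h7, h1, mul_one]
  have hinj : Function.Injective φ := by
    intro g h hgh
    by_contra hne
    have := hsepφ g h hne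
    rw [hgh, sub_self, norm_zero] at this
    linarith
  have hfr : finrank ℝ (E d →L[ℝ] E d) = d ^ 2 := by
    rw [← (LinearMap.toContinuousLinearMap : (E d →ₗ[ℝ] E d) ≃ₗ[ℝ] (E d →L[ℝ] E d)).finrank_eq,
      Module.finrank_linearMap, finrank_euclideanSpace_fin, sq]
  have : Fintype G := Fintype.ofFinite G
  rw [Nat.card_eq_fintype_card]
  classical
  have h1 := Besicovitch.card_le_of_separated (Finset.univ.image φ)
    (by
      intro c hc
      obtain ⟨g, _, rfl⟩ := Finset.mem_image.mp hc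
      exact hφ2 g)
    (by
      intro c hc e he hce
      obtain ⟨g, _, rfl⟩ := Finset.mem_image.mp hc
      obtain ⟨h, _, rfl⟩ := Finset.mem_image.mp he
      exact hsepφ g h (fun hh => hce (by rw [hh])))
  rw [Finset.card_image_of_injective _ hinj, hfr] at h1
  exact h1

theorem chain_card {d n : ℕ} (G : ℕ → Subgroup (E d ≃ₗᵢ[ℝ] E d)) (h0 : Finite (G 0))
    (h : ∀ i < n, G (i + 1) < G i) : ∀ i ≤ n, G i ≤ G 0 ∧ Nat.card (G i) * 2 ^ i ≤ Nat.card (G 0) := by
  intro i
  induction i with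
  | zero => intro _; exact ⟨le_rfl, by simp⟩
  | succ i ih =>
    intro hi
    obtain ⟨h1, h2⟩ := ih (by omega)
    have h3 := h i (by omega)
    refine ⟨h3.le.trans h1, ?_⟩
    have hfi : Finite (G i) :=
      Finite.of_injective (Subgroup.inclusion h1) (Subgroup.inclusion_injective h1)
    have h4 := Subgroup.card_mul_index ((G (i + 1)).subgroupOf (G i))
    have h5 : Nat.card ((G (i + 1)).subgroupOf (G i)) = Nat.card (G (i + 1)) :=
      Nat.card_congr (Subgroup.subgroupOfEquivOfLe h3.le).toEquiv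
    rw [h5] at h4
    have h6 : 2 ≤ ((G (i + 1)).subgroupOf (G i)).index := by
      have h7 : ((G (i + 1)).subgroupOf (G i)).index ≠ 1 := by
        intro h8
        rw [Subgroup.index_eq_one, Subgroup.subgroupOf_eq_top] at h8
        exact h3.not_ge h8
      have h8 : ((G (i + 1)).subgroupOf (G i)).index ≠ 0 := by
        intro h9
        rw [h9, mul_zero] at h4
        exact absurd h4.symm Nat.card_pos.ne'
      omega
    calc Nat.card (G (i + 1)) * 2 ^ (i + 1)
        = (Nat.card (G (i + 1)) * 2) * 2 ^ i := by ring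
      _ ≤ Nat.card (G i) * 2 ^ i := by
        apply Nat.mul_le_mul_right
        rw [← h4]
        exact Nat.mul_le_mul_left _ h6
      _ ≤ _ := h2

theorem chain_le {d n : ℕ} (h : n ∈ chainLengths d) : n ≤ 3 * d ^ 2 := by
  obtain ⟨G, hG, hc⟩ := h
  have h1 := (chain_card G hG.1 hc n le_rfl)
  have h2 := card_separated _ hG
  have hfin : Finite (G n) := by
    have := hG.1
    exact Finite.of_injective (Subgroup.inclusion h1.1) (Subgroup.inclusion_injective h1.1)
  have h3 : 1 ≤ Nat.card (G n) := Nat.card_pos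
  have h4 : 2 ^ n ≤ 5 ^ (d ^ 2) := by
    calc 2 ^ n = 1 * 2 ^ n := (one_mul _).symm
      _ ≤ _ := Nat.mul_le_mul_right _ h3
      _ ≤ _ := h1.2
      _ ≤ _ := h2
  have h5 : 5 ^ (d ^ 2) ≤ 2 ^ (3 * d ^ 2) := by
    rw [pow_mul]
    exact Nat.pow_le_pow_left (by norm_num) _
  exact (Nat.pow_le_pow_iff_right (by norm_num)).mp (h4.trans h5)

theorem bdd (d : ℕ) : BddAbove (chainLengths d) := ⟨3 * d ^ 2, fun _ hn => chain_le hn⟩

/-- linear part as a homomorphism -/
noncomputable def linHom (d : ℕ) : (E d ≃ᵢ E d) →* (E d ≃ₗᵢ[ℝ] E d) where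
  toFun := lin
  map_one' := by
    ext1 v
    have : lin (1 : E d ≃ᵢ E d) v = (1 : E d ≃ᵢ E d) v - (1 : E d ≃ᵢ E d) 0 := by
      rw [← lin_sub, sub_zero]
    rw [this, IsometryEquiv.coe_one, id, id, sub_zero]
    rfl
  map_mul' := by
    intro g h
    ext1 v
    rw [lin_mul]; rfl

theorem linHom_injOn {d : ℕ} {x : E d} {g h : E d ≃ᵢ E d} (hg : g x = x) (hh : h x = x)
    (hgh : linHom d g = linHom d h) : g = h := by
  ext1 z
  have h1 : lin g (z - x) = lin h (z - x) := by
    change linHom d g (z - x) = linHom d h (z - x)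
    rw [hgh]
  rw [lin_sub, lin_sub, hg, hh] at h1
  exact sub_left_injective h1

/-- Main theorem. Let `X` be a Delone set in `ℝ^d` (`d ≥ 1`) with covering radius at most `R`, all
of whose clusters of radius `ρ` are equivalent. If `ρ ≥ (11 d + 8 + 3 ℓ(d)) R`, where `ℓ(d)` is the
largest length of a chain of subgroups in a finite group of linear isometries of `ℝ^d` without
non-identity elements near the identity, then `X` is regular. -/
theorem result (d : ℕ) (R ρ : ℝ) (hR : 0 < R)
    (hρ : (11 * d + 8 + 3 * maxChain d) * R ≤ ρ) (X : Set (E d))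
    (hX : IsDelone X R) (hcl : ClustersEquivalent X ρ) : Regular X := by
  obtain ⟨hsep, hcov⟩ := hX
  obtain ⟨r, hr, hsep⟩ := hsep
  have htr : ∀ x ∈ X, ∀ y ∈ X, ∃ g : E d ≃ᵢ E d, g x = y ∧ LS X g x ρ := by
    intro x hx y hy
    obtain ⟨g, hg1, hg2⟩ := hcl x hx y hy
    refine ⟨g, hg1, ?_⟩
    rw [LS_iff, hg1]
    exact hg2
  have hfr : finrank ℝ (E d) = d := finrank_euclideanSpace_fin
  set K := maxChain d with hK
  set ρs : ℝ := 4 * R + 11 * R * (finrank ℝ (E d)) with hρs
  have hd0 : (0 : ℝ) ≤ d := Nat.cast_nonneg d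
  have hK0 : (0 : ℝ) ≤ K := Nat.cast_nonneg K
  have hρs0 : 0 ≤ ρs := by positivity
  have hKR : ρs + 3 * R * (K + 1) ≤ ρ := by
    rw [hρs, hfr]
    nlinarith
  have hρ5 : 5 * R + 11 * R * (finrank ℝ (E d)) ≤ ρ := by
    have : 0 ≤ R * K := by positivity
    rw [hρs] at hKR
    nlinarith
  obtain ⟨x0, hx0, -⟩ := hcov 0
  obtain ⟨hfin, -⟩ := card_S hr hR hsep hcov htr hρ5 x0
  have hex : ∃ k ≤ K, S X x0 (ρs + 3 * R * k) ≤ S X x0 (ρs + 3 * R * k + 3 * R) := by
    by_contra hcon
    push Not at hcon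
    let G : ℕ → Subgroup (E d ≃ₗᵢ[ℝ] E d) := fun k => (S X x0 (ρs + 3 * R * k)).map (linHom d)
    have hmem : K + 1 ∈ chainLengths d := by
      refine ⟨G, ⟨?_, ?_⟩, ?_⟩
      · have h0 : G 0 = (S X x0 ρs).map (linHom d) := by simp [G]
        rw [h0]
        have hfin' : Finite (S X x0 ρs) := hfin
        exact Finite.of_surjective _ ((linHom d).subgroupMap_surjective (S X x0 ρs))
      · have h0 : G 0 = (S X x0 ρs).map (linHom d) := by simp [G]
        rw [h0]
        rintro A ⟨g, hg, rfl⟩ hA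
        have h1 : g = 1 := N_trivial hr hR hsep hcov htr hρ5 x0 g ⟨hg.1, hg.2, hA⟩
        rw [h1, map_one]
      · intro i hi
        have e : ρs + 3 * R * ((i + 1 : ℕ) : ℝ) = ρs + 3 * R * i + 3 * R := by push_cast; ring
        have hle : S X x0 (ρs + 3 * R * ((i + 1 : ℕ) : ℝ)) ≤ S X x0 (ρs + 3 * R * i) :=
          S_anti (by rw [e]; linarith)
        refine lt_of_le_of_ne (Subgroup.map_mono hle) ?_
        intro heq
        apply hcon i (by omega)
        rw [← e]
        intro g hg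
        have h1 : linHom d g ∈ G i := ⟨g, hg, rfl⟩
        rw [← heq] at h1
        obtain ⟨h, hh, hhg⟩ := h1
        have h2 : h = g := linHom_injOn hh.1 hg.1 hhg
        rw [← h2]; exact hh
    have h1 : K + 1 ≤ maxChain d := le_csSup (bdd d) hmem
    omega
  obtain ⟨k, hk, hSk⟩ := hex
  have hkR : (k : ℝ) ≤ K := by exact_mod_cast hk
  have hρk : ρs + 3 * R * k + 3 * R ≤ ρ := by nlinarith
  apply local_theorem (ρ := ρs + 3 * R * k) hR (by positivity) hcov
  · intro x hx y hy
    obtain ⟨g, hg1, hg2⟩ := htr x hx y hy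
    exact ⟨g, hg1, hg2.mono' hρk⟩
  · intro x hx
    obtain ⟨g, hg1, hg2⟩ := htr x0 hx0 x hx
    exact S_transfer hg1 hg2 (by linarith) hρk hSk

end Pool.Agent.Results.MP_e6a378_co.ChainReduction
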